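import Mathlib

/-!
# MP_68514f_co: mixed radial Moore graphs do not always exist

If `r` and `z` are odd and `k` is not congruent to `2` modulo `3`, then the mixed Moore bound
`M(r,z,k)` is odd, so that a totally `(r,z)`-regular mixed graph of that order would have an
undirected `r`-regular part on an odd number of vertices with `r` odd; this is impossible.
-/

namespace Pool.Agent.Results.MP_68514f_co.ParityObstruction

/-- A mixed graph on `V`: a set of undirected edges (a simple graph) and a set of arcs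
(an arbitrary relation). -/
structure MixedGraph (V : Type) where
  /-- the undirected edges -/
  edge : SimpleGraph V
  /-- `arc u v` : there is an arc directed from `u` to `v` -/
  arc : V → V → Prop

namespace MixedGraph

variable {V : Type}

/-- One step of a walk: along an undirected edge or along an arc. -/
def Step (G : MixedGraph V) (u v : V) : Prop := G.edge.Adj u v ∨ G.arc u v

/-- There is a walk of length `l` from `u` to `v`. -/
def HasWalk (G : MixedGraph V) (l : ℕ) (u v : V) : Prop :=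
  ∃ f : ℕ → V, f 0 = u ∧ f l = v ∧ ∀ i < l, G.Step (f i) (f (i + 1))

/-- The distance from `u` to `v`: the least length of a walk (`⊤` if there is none). -/
noncomputable def dist (G : MixedGraph V) (u v : V) : ℕ∞ :=
  ⨅ l ∈ {l : ℕ | G.HasWalk l u v}, (l : ℕ∞)

/-- The out-eccentricity of `u`. -/
noncomputable def outEcc (G : MixedGraph V) (u : V) : ℕ∞ := ⨆ v, G.dist u v

/-- The radius: the minimum out-eccentricity. -/
noncomputable def radius (G : MixedGraph V) : ℕ∞ := ⨅ u, G.outEcc u

/-- The diameter: the maximum out-eccentricity. -/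
noncomputable def diam (G : MixedGraph V) : ℕ∞ := ⨆ u, G.outEcc u

/-- Total `(r,z)`-regularity: every vertex lies on `r` edges, and is the tail of `z` arcs and
the head of `z` arcs. -/
def TotallyRegular (G : MixedGraph V) (r z : ℕ) : Prop :=
  ∀ v, {w | G.edge.Adj v w}.ncard = r ∧ {w | G.arc v w}.ncard = z ∧ {w | G.arc w v}.ncard = z

end MixedGraph

/-- The numbers `N_0 = 1`, `N_1 = r + z`, `N_i = (r+z-1) N_{i-1} + z N_{i-2}`. -/
def N (r z : ℕ) : ℕ → ℕ
  | 0 => 1
  | 1 => r + z
  | (i + 2) => (r + z - 1) * N r z (i + 1) + z * N r z i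

/-- The mixed Moore bound `M(r,z,k) = N_0 + ... + N_k`. -/
def M (r z k : ℕ) : ℕ := ∑ i ∈ Finset.range (k + 1), N r z i

/-- `G` is an `(r,z,k)`-mixed radial Moore graph: totally `(r,z)`-regular, of radius `k`,
diameter `k+1` and order `M(r,z,k)`. -/
def IsMixedRadialMoore {V : Type} [Fintype V] (G : MixedGraph V) (r z k : ℕ) : Prop :=
  G.TotallyRegular r z ∧ G.radius = (k : ℕ∞) ∧ G.diam = ((k + 1 : ℕ) : ℕ∞) ∧
    Fintype.card V = M r z k

lemma N_parity (r z : ℕ) (hr : Odd r) (hz : Odd z) (q : ℕ) :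
    N r z (3 * q) % 2 = 1 ∧ N r z (3 * q + 1) % 2 = 0 ∧ N r z (3 * q + 2) % 2 = 1 := by
  have hr' : r % 2 = 1 := Nat.odd_iff.mp hr
  have hz' : z % 2 = 1 := Nat.odd_iff.mp hz
  have hs : (r + z - 1) % 2 = 1 := by omega
  have step : ∀ i, N r z (i + 2) % 2 = (N r z (i + 1) + N r z i) % 2 := by
    intro i
    show ((r + z - 1) * N r z (i + 1) + z * N r z i) % 2 = _
    rw [Nat.add_mod, Nat.mul_mod, hs, Nat.mul_mod z, hz']
    omega
  induction q with
  | zero =>
    have h0 : N r z 0 = 1 := rfl
    have h1 : N r z 1 = r + z := rfl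
    have h2 := step 0
    simp only [Nat.mul_zero, Nat.zero_add] at *
    omega
  | succ q ih =>
    have h3 := step (3 * q + 1)
    have h4 := step (3 * q + 2)
    have h5 := step (3 * q + 3)
    have e3 : 3 * (q + 1) = 3 * q + 1 + 2 := by ring
    have e4 : 3 * (q + 1) + 1 = 3 * q + 2 + 2 := by ring
    have e5 : 3 * (q + 1) + 2 = 3 * q + 3 + 2 := by ring
    rw [e3, show 3 * q + 1 + 2 + 1 = 3 * q + 2 + 2 by ring,
      show 3 * q + 1 + 2 + 2 = 3 * q + 3 + 2 by ring]
    have e6 : 3 * q + 1 + 1 = 3 * q + 2 := by ring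
    have e7 : 3 * q + 2 + 1 = 3 * q + 1 + 2 := by ring
    have e8 : 3 * q + 3 + 1 = 3 * q + 2 + 2 := by ring
    have e9 : 3 * q + 3 = 3 * q + 1 + 2 := by ring
    rw [e6] at h3
    rw [e7] at h4
    rw [e8, e9] at h5
    rw [e9]
    omega

lemma M_parity (r z : ℕ) (hr : Odd r) (hz : Odd z) (q : ℕ) :
    M r z (3 * q) % 2 = 1 ∧ M r z (3 * q + 1) % 2 = 1 ∧ M r z (3 * q + 2) % 2 = 0 := by
  have stepM : ∀ k, M r z (k + 1) = M r z k + N r z (k + 1) := by
    intro k
    unfold M
    rw [Finset.sum_range_succ]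
  induction q with
  | zero =>
    have h0 : M r z 0 = 1 := by simp [M, N]
    have h1 := stepM 0
    have h2 : M r z 2 = M r z 1 + N r z 2 := stepM 1
    have hN := N_parity r z hr hz 0
    simp only [Nat.mul_zero, Nat.zero_add] at *
    omega
  | succ q ih =>
    have h1 : M r z (3 * q + 3) = M r z (3 * q + 2) + N r z (3 * q + 3) := stepM (3 * q + 2)
    have h2 : M r z (3 * q + 3 + 1) = M r z (3 * q + 3) + N r z (3 * q + 3 + 1) :=
      stepM (3 * q + 3)
    have h3 : M r z (3 * q + 3 + 2) = M r z (3 * q + 3 + 1) + N r z (3 * q + 3 + 2) :=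
      stepM (3 * q + 4)
    have hN := N_parity r z hr hz (q + 1)
    have e3 : 3 * (q + 1) = 3 * q + 3 := by ring
    rw [e3] at hN ⊢
    omega

lemma M_odd (r z k : ℕ) (hr : Odd r) (hz : Odd z) (hk : k % 3 ≠ 2) : M r z k % 2 = 1 := by
  have h := M_parity r z hr hz (k / 3)
  rcases (by omega : k = 3 * (k / 3) ∨ k = 3 * (k / 3) + 1) with h' | h'
  · rw [h']; exact h.1
  · rw [h']; exact h.2.1

/-- For all odd `r`, `z` and all `k` not congruent to `2` modulo `3` there is no
`(r,z,k)`-mixed radial Moore graph. -/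
theorem result : ∀ r z k : ℕ, Odd r → Odd z → k % 3 ≠ 2 →
    ¬ ∃ (V : Type) (_ : Fintype V) (G : MixedGraph V), IsMixedRadialMoore G r z k := by
  classical
  rintro r z k hr hz hk ⟨V, _, G, hreg, -, -, hcard⟩
  have hdeg : ∀ v, G.edge.degree v = r := by
    intro v
    rw [← (hreg v).1, ← SimpleGraph.card_neighborFinset_eq_degree, ← Set.ncard_coe_finset]
    congr 1
    ext w
    simp
  have hsum := G.edge.sum_degrees_eq_twice_card_edges
  simp only [hdeg, Finset.sum_const, Finset.card_univ, smul_eq_mul] at hsum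
  have h1 : Fintype.card V % 2 = 1 := by rw [hcard]; exact M_odd r z k hr hz hk
  have h2 : r % 2 = 1 := Nat.odd_iff.mp hr
  have h3 : (Fintype.card V * r) % 2 = 1 := by rw [Nat.mul_mod, h1, h2]
  omega

end Pool.Agent.Results.MP_68514f_co.ParityObstruction
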